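import Pool.Agent.LeoG.UpStmts

/-! REA: real inequalities at one place, forms of negative discriminant. -/

set_option autoImplicit false

namespace Pool.Agent.LeoG.H90

open Pool.Agent.LeoK Pool.Agent.LeoG

/-- The coefficient of the cubic covariant. -/
lemma cov_one (v : Q4 ℝ) : gcov v 1 0 = 2 * v 1 ^ 3 - 9 * v 0 * v 1 * v 2 + 27 * v 0 ^ 2 * v 3 := by
  unfold gcov
  ring

lemma syz (v : Q4 ℝ) :
    gcov v 1 0 ^ 2 - 27 * mm v * v 0 ^ 2 = 4 * (v 1 ^ 2 - 3 * v 0 * v 2) ^ 3 := by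
  rw [cov_one]
  unfold mm dsc
  ring

/-- Normal form at one place. -/
lemma key (v : Q4 ℝ) (hm : 0 < mm v) : ∃ s t δ g : ℝ, 0 ≤ s ∧ 0 ≤ t ∧ 0 < δ ∧
    mm v = 27 * δ ^ 6 ∧ hz v 1 0 * (2 * δ) = s ^ 2 + t ^ 2 ∧ s ^ 3 = |(v 0 + g) / 2| ∧
    t ^ 3 = |(v 0 - g) / 2| ∧ gcov v 1 0 = 27 * δ ^ 3 * g := by
  have hm27 : 0 < mm v / 27 := by positivity
  obtain ⟨δ, hδ⟩ : ∃ δ : ℝ, δ = (mm v / 27) ^ (1 / 6 : ℝ) := ⟨_, rfl⟩
  have hδ0 : 0 < δ := by rw [hδ]; exact Real.rpow_pos_of_pos hm27 _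
  have hδ6 : δ ^ 6 = mm v / 27 := by
    rw [hδ, ← Real.rpow_natCast, ← Real.rpow_mul hm27.le]
    norm_num
  have hsq : Real.sqrt (27 * mm v) = 27 * δ ^ 3 := by
    have h1 : 27 * mm v = (27 * δ ^ 3) ^ 2 := by
      have h2 : (27 * δ ^ 3) ^ 2 = 729 * δ ^ 6 := by ring
      rw [h2, hδ6]
      ring
    rw [h1, Real.sqrt_sq (by positivity)]
  have hcube : ∀ x : ℝ, ∃ s : ℝ, 0 ≤ s ∧ s ^ 3 = |x| ∧ s ^ 2 = |x| ^ (2 / 3 : ℝ) := by
    intro x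
    refine ⟨|x| ^ (1 / 3 : ℝ), Real.rpow_nonneg (abs_nonneg _) _, ?_, ?_⟩
    · rw [← Real.rpow_natCast, ← Real.rpow_mul (abs_nonneg _)]
      norm_num
    · rw [← Real.rpow_natCast, ← Real.rpow_mul (abs_nonneg _)]
      norm_num
  obtain ⟨s, hs0, hs3, hs2⟩ := hcube ((v 0 + gcov v 1 0 / (27 * δ ^ 3)) / 2)
  obtain ⟨t, ht0, ht3, ht2⟩ := hcube ((v 0 - gcov v 1 0 / (27 * δ ^ 3)) / 2)
  refine ⟨s, t, δ, gcov v 1 0 / (27 * δ ^ 3), hs0, ht0, hδ0, ?_, ?_, hs3, ht3, ?_⟩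
  · rw [hδ6]
    ring
  · have hv : gval v 1 0 = v 0 := by
      unfold gval
      ring
    unfold hz
    rw [hv, hsq, ← hδ, ← hs2, ← ht2]
    field_simp
  · field_simp

lemma part1 (v : Q4 ℝ) (hm : 0 < mm v) :
    |v 0| ≤ 2 * (hz v 1 0 ^ (3 / 2 : ℝ) * mm v ^ (1 / 4 : ℝ)) ∧
    |v 1 ^ 2 - 3 * v 0 * v 2| ≤ 2 * (hz v 1 0 * Real.sqrt (mm v)) := by
  obtain ⟨s, t, δ, g, hs, ht, hδ, h1, h2, h3, h4, h5⟩ := key v hm
  have hz0 : 0 ≤ hz v 1 0 := by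
    have h6 : 0 ≤ hz v 1 0 * (2 * δ) := by rw [h2]; positivity
    exact nonneg_of_mul_nonneg_left h6 (by positivity)
  constructor
  · obtain ⟨w, hw⟩ : ∃ w : ℝ, w = hz v 1 0 ^ (1 / 2 : ℝ) := ⟨_, rfl⟩
    have hw0 : 0 ≤ w := by rw [hw]; exact Real.rpow_nonneg hz0 _
    have hw2 : w ^ 2 = hz v 1 0 := by
      rw [hw, ← Real.rpow_natCast, ← Real.rpow_mul hz0]
      norm_num
    have hw3 : hz v 1 0 ^ (3 / 2 : ℝ) = w ^ 3 := by
      rw [hw, ← Real.rpow_natCast, ← Real.rpow_mul hz0]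
      norm_num
    obtain ⟨r, hr⟩ : ∃ r : ℝ, r = mm v ^ (1 / 4 : ℝ) := ⟨_, rfl⟩
    have hr0 : 0 < r := by rw [hr]; exact Real.rpow_pos_of_pos hm _
    have hr4 : r ^ 4 = 27 * δ ^ 6 := by
      rw [← h1, hr, ← Real.rpow_natCast, ← Real.rpow_mul hm.le]
      norm_num
    rw [hw3, ← hr]
    have ha : |v 0| ≤ s ^ 3 + t ^ 3 := by
      rw [h3, h4]
      have e : v 0 = (v 0 + g) / 2 + (v 0 - g) / 2 := by ring
      conv_lhs => rw [e]
      exact abs_add_le _ _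
    have hr2 : 2 * δ ^ 3 ≤ r ^ 2 := by
      refine le_of_sq_le_sq ?_ (by positivity)
      have e1 : (2 * δ ^ 3) ^ 2 = 4 * δ ^ 6 := by ring
      have e2 : (r ^ 2) ^ 2 = r ^ 4 := by ring
      rw [e1, e2, hr4]
      nlinarith [pow_pos hδ 6]
    have hst : (s ^ 3 + t ^ 3) ^ 2 ≤ (s ^ 2 + t ^ 2) ^ 3 := by
      have h7 : 0 ≤ (s * t) ^ 2 * (3 * (s ^ 2 + t ^ 2) - 2 * (s * t)) := by
        apply mul_nonneg (sq_nonneg _)
        have h8 := sq_nonneg (s - t)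
        have h9 := mul_nonneg hs ht
        have h10 : (s - t) ^ 2 = s ^ 2 + t ^ 2 - 2 * (s * t) := by ring
        have h11 : 0 ≤ s ^ 2 + t ^ 2 := by positivity
        linarith
      have h12 : (s ^ 2 + t ^ 2) ^ 3 - (s ^ 3 + t ^ 3) ^ 2 =
          (s * t) ^ 2 * (3 * (s ^ 2 + t ^ 2) - 2 * (s * t)) := by ring
      linarith
    refine ha.trans (le_of_sq_le_sq ?_ (by positivity))
    refine hst.trans ?_
    rw [← h2, ← hw2]
    have e3 : (w ^ 2 * (2 * δ)) ^ 3 = 4 * w ^ 6 * (2 * δ ^ 3) := by ring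
    have e4 : (2 * (w ^ 3 * r)) ^ 2 = 4 * w ^ 6 * r ^ 2 := by ring
    rw [e3, e4]
    exact mul_le_mul_of_nonneg_left hr2 (by positivity)
  · have hP : |v 1 ^ 2 - 3 * v 0 * v 2| ≤ 9 * δ ^ 2 * (s * t) := by
      have h6 := syz v
      rw [h5, h1] at h6
      have h7 : |v 1 ^ 2 - 3 * v 0 * v 2| ^ 3 = (9 * δ ^ 2 * (s * t)) ^ 3 := by
        have h8 : (v 1 ^ 2 - 3 * v 0 * v 2) ^ 3 =
            -(729 * δ ^ 6 * (((v 0 + g) / 2) * ((v 0 - g) / 2))) := by linarith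
        rw [← abs_pow, h8, abs_neg, abs_mul (729 * δ ^ 6) _, abs_mul ((v 0 + g) / 2) _, ← h3, ← h4,
          abs_of_pos (show 0 < 729 * δ ^ 6 by positivity)]
        ring
      exact (pow_le_pow_iff_left₀ (abs_nonneg _) (by positivity) (by norm_num)).1 h7.le
    have hst : s * t ≤ hz v 1 0 * δ := by nlinarith [sq_nonneg (s - t)]
    have hsq : 9 / 2 * δ ^ 3 ≤ Real.sqrt (mm v) := by
      apply Real.le_sqrt_of_sq_le
      rw [h1]
      nlinarith [pow_pos hδ 6]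
    calc |v 1 ^ 2 - 3 * v 0 * v 2| ≤ 9 * δ ^ 2 * (s * t) := hP
      _ ≤ 9 * δ ^ 2 * (hz v 1 0 * δ) := mul_le_mul_of_nonneg_left hst (by positivity)
      _ = 2 * (hz v 1 0 * (9 / 2 * δ ^ 3)) := by ring
      _ ≤ 2 * (hz v 1 0 * Real.sqrt (mm v)) := by
          refine mul_le_mul_of_nonneg_left ?_ (by norm_num)
          exact mul_le_mul_of_nonneg_left hsq hz0

lemma part2 (κ : ℝ) (hκ : 1 ≤ κ) (a b c M ξ : ℝ) (ha : a ≠ 0) (hM : 0 < M) (hξ : 0 < ξ) :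
    ∃ α : Fin 3 → ℝ, ∀ d : ℝ, 0 < mm ![a, b, c, d] →
      M ≤ κ * mm ![a, b, c, d] → mm ![a, b, c, d] ≤ κ * M →
      ξ ≤ κ * hz ![a, b, c, d] 1 0 → hz ![a, b, c, d] 1 0 ≤ κ * ξ →
      ∃ i, α i ≤ d ∧ d ≤ α i + κ ^ 4 * (M ^ (1 / 4 : ℝ) / ξ ^ (3 / 2 : ℝ)) := by
  have hκ0 : 0 < κ := by linarith
  obtain ⟨r, hr⟩ : ∃ r : ℝ, r = M ^ (1 / 4 : ℝ) := ⟨_, rfl⟩
  have hr0 : 0 < r := by rw [hr]; exact Real.rpow_pos_of_pos hM _
  have hr4 : r ^ 4 = M := by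
    rw [hr, ← Real.rpow_natCast, ← Real.rpow_mul hM.le]
    norm_num
  obtain ⟨y, hy⟩ : ∃ y : ℝ, y = ξ ^ (1 / 2 : ℝ) := ⟨_, rfl⟩
  have hy0 : 0 < y := by rw [hy]; exact Real.rpow_pos_of_pos hξ _
  have hy2 : y ^ 2 = ξ := by
    rw [hy, ← Real.rpow_natCast, ← Real.rpow_mul hξ.le]
    norm_num
  have hy3 : ξ ^ (3 / 2 : ℝ) = y ^ 3 := by
    rw [hy, ← Real.rpow_natCast, ← Real.rpow_mul hξ.le]
    norm_num
  rw [← hr, hy3]
  obtain ⟨S, hS⟩ : ∃ S : ℝ, S = r * y ^ 3 := ⟨_, rfl⟩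
  have hS0 : 0 < S := by rw [hS]; positivity
  obtain ⟨R, hR⟩ : ∃ R : ℝ, R = r / y ^ 3 := ⟨_, rfl⟩
  have hR0 : 0 < R := by rw [hR]; positivity
  have hRS : R * S = r ^ 2 := by
    rw [hR, hS]
    field_simp
  rw [← hR]
  obtain ⟨G, hG⟩ : ∃ G : ℝ, G = r ^ 2 * S / κ ^ 3 := ⟨_, rfl⟩
  have hG0 : 0 < G := by rw [hG]; positivity
  have hGκ : G * κ ^ 3 = r ^ 2 * S := by
    rw [hG]
    field_simp
  obtain ⟨e, he⟩ : ∃ e : ℝ, e = 2 * b ^ 3 - 9 * a * b * c := ⟨_, rfl⟩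
  obtain ⟨P, hP⟩ : ∃ P : ℝ, P = b ^ 2 - 3 * a * c := ⟨_, rfl⟩
  obtain ⟨gb, hgb⟩ : ∃ g : ℝ, g = Real.sqrt (4 * P ^ 3 + 27 * a ^ 2 * (κ * M)) := ⟨_, rfl⟩
  obtain ⟨gl, hgl⟩ : ∃ g : ℝ, g = Real.sqrt (4 * P ^ 3 + 27 * a ^ 2 * (M / κ)) := ⟨_, rfl⟩
  obtain ⟨ga, hga⟩ : ∃ g : ℝ, g = max G gl := ⟨_, rfl⟩
  have ha2 : 0 < a ^ 2 := by positivity
  have h27 : 0 < 27 * a ^ 2 := by positivity
  refine ⟨![(-G - e) / (27 * a ^ 2), (ga - e) / (27 * a ^ 2), (-gb - e) / (27 * a ^ 2)],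
    fun d hm h1 h2 h3 h4 => ?_⟩
  obtain ⟨s, t, δ, g, hs, ht, hδ, k1, k2, k3, k4, k5⟩ := key _ hm
  have k6 := syz ![a, b, c, d]
  obtain ⟨X, hX⟩ : ∃ X : ℝ, X = gcov ![a, b, c, d] 1 0 := ⟨_, rfl⟩
  have hXd : X = e + 27 * a ^ 2 * d := by
    rw [hX, cov_one, he]
    simp only [Matrix.cons_val]
  rw [← hX] at k5 k6
  obtain ⟨m, hm'⟩ : ∃ m : ℝ, m = mm ![a, b, c, d] := ⟨_, rfl⟩
  obtain ⟨z, hz'⟩ : ∃ z : ℝ, z = hz ![a, b, c, d] 1 0 := ⟨_, rfl⟩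
  rw [← hm'] at hm h1 h2 k1 k6
  rw [← hz'] at h3 h4 k2
  have k6' : X ^ 2 = 4 * P ^ 3 + 27 * a ^ 2 * m := by
    have e0 : (![a, b, c, d] : Q4 ℝ) 0 = a := rfl
    have e1 : (![a, b, c, d] : Q4 ℝ) 1 = b := rfl
    have e2 : (![a, b, c, d] : Q4 ℝ) 2 = c := rfl
    rw [e0, e1, e2] at k6
    rw [hP]
    linarith
  have e0 : (![a, b, c, d] : Q4 ℝ) 0 = a := rfl
  rw [e0] at k3 k4
  have hd : d = (X - e) / (27 * a ^ 2) := by
    rw [hXd]
    field_simp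
    ring
  have hUX : X ^ 2 ≤ 4 * P ^ 3 + 27 * a ^ 2 * (κ * M) := by
    rw [k6']
    have := mul_le_mul_of_nonneg_left h2 h27.le
    linarith
  have hMκ : M / κ ≤ m := by
    rw [div_le_iff₀ hκ0]
    linarith
  have hLX : 4 * P ^ 3 + 27 * a ^ 2 * (M / κ) ≤ X ^ 2 := by
    rw [k6']
    have := mul_le_mul_of_nonneg_left hMκ h27.le
    linarith
  have hdiv : ∀ u v : ℝ, u ≤ v → u / (27 * a ^ 2) ≤ v / (27 * a ^ 2) := fun u v h =>
    div_le_div_of_nonneg_right h h27.le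
  rcases lt_or_ge |X| G with hlt | hge
  · -- the middle interval
    refine ⟨0, ?_, ?_⟩
    · change (-G - e) / (27 * a ^ 2) ≤ d
      rw [hd]
      exact hdiv _ _ (by linarith [(abs_lt.1 hlt).1])
    · change d ≤ (-G - e) / (27 * a ^ 2) + κ ^ 4 * R
      have hz0 : 0 ≤ z := by
        have h6 : 0 ≤ z * (2 * δ) := by rw [k2]; positivity
        exact nonneg_of_mul_nonneg_left h6 (by positivity)
      -- κ⁴ N³ ≥ S²
      have hN : S ^ 2 ≤ κ ^ 4 * (s ^ 2 + t ^ 2) ^ 3 := by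
        refine le_of_sq_le_sq ?_ (by positivity)
        rw [← k2]
        have e1 : (S ^ 2) ^ 2 = M * ξ ^ 6 := by
          rw [hS, ← hr4, ← hy2]
          ring
        have e2 : (κ ^ 4 * (z * (2 * δ)) ^ 3) ^ 2 = 64 / 27 * κ * ((κ * m) * (κ * z) ^ 6) := by
          rw [k1]
          ring
        rw [e1, e2]
        have i1 : M * ξ ^ 6 ≤ (κ * m) * (κ * z) ^ 6 :=
          mul_le_mul h1 (pow_le_pow_left₀ hξ.le h3 6) (by positivity) (by positivity)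
        have i2 : 0 ≤ (κ * m) * (κ * z) ^ 6 := by positivity
        exact i1.trans (le_mul_of_one_le_left i2 (by linarith))
      have hst : (s ^ 2 + t ^ 2) ^ 3 ≤ 2 * (a ^ 2 + g ^ 2) := by
        have i1 : a ^ 2 + g ^ 2 = 2 * ((s ^ 3) ^ 2 + (t ^ 3) ^ 2) := by
          rw [k3, k4, sq_abs, sq_abs]
          ring
        rw [i1]
        have i2 : 0 ≤ 3 * (s ^ 2 + t ^ 2) * (s ^ 2 - t ^ 2) ^ 2 := by positivity
        have i3 : 2 * (2 * ((s ^ 3) ^ 2 + (t ^ 3) ^ 2)) - (s ^ 2 + t ^ 2) ^ 3 =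
            3 * (s ^ 2 + t ^ 2) * (s ^ 2 - t ^ 2) ^ 2 := by ring
        linarith
      have hg : 27 * κ ^ 4 * g ^ 2 ≤ S ^ 2 := by
        have i1 : X ^ 2 ≤ G ^ 2 := by
          rw [← sq_abs X]
          exact pow_le_pow_left₀ (abs_nonneg _) hlt.le 2
        have i2 : κ ^ 6 * X ^ 2 ≤ r ^ 4 * S ^ 2 := by
          calc κ ^ 6 * X ^ 2 ≤ κ ^ 6 * G ^ 2 := mul_le_mul_of_nonneg_left i1 (by positivity)
            _ = (G * κ ^ 3) ^ 2 := by ring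
            _ = r ^ 4 * S ^ 2 := by rw [hGκ]; ring
        have i3 : κ ^ 6 * X ^ 2 = 27 * κ ^ 5 * g ^ 2 * (κ * m) := by
          rw [k5, k1]
          ring
        have i4 : 27 * κ ^ 5 * g ^ 2 * M ≤ 27 * κ ^ 5 * g ^ 2 * (κ * m) :=
          mul_le_mul_of_nonneg_left h1 (by positivity)
        rw [i3] at i2
        have i5 : 27 * κ ^ 5 * g ^ 2 * M ≤ S ^ 2 * M := by
          rw [hr4] at i2
          linarith
        have i6 : 27 * κ ^ 5 * g ^ 2 ≤ S ^ 2 := le_of_mul_le_mul_right i5 hM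
        have i7 : 27 * κ ^ 4 * g ^ 2 ≤ 27 * κ ^ 5 * g ^ 2 := by
          have : κ ^ 4 ≤ κ ^ 5 := pow_le_pow_right₀ hκ (by norm_num)
          have := mul_le_mul_of_nonneg_right this (sq_nonneg g)
          linarith
        linarith
      have haS : S ^ 2 ≤ 4 * κ ^ 4 * a ^ 2 := by
        have i1 := mul_le_mul_of_nonneg_left hst (show 0 ≤ κ ^ 4 by positivity)
        have i2 : κ ^ 4 * (2 * (a ^ 2 + g ^ 2)) = 2 * (κ ^ 4 * a ^ 2) + 2 * (κ ^ 4 * g ^ 2) := by ring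
        have i3 : 0 ≤ κ ^ 4 * a ^ 2 := by positivity
        linarith
      have hlen : 2 * G ≤ 27 * a ^ 2 * (κ ^ 4 * R) := by
        have i1 : 2 * G * (κ ^ 3 * S) ≤ 27 * a ^ 2 * (κ ^ 4 * R) * (κ ^ 3 * S) := by
          have e1 : 2 * G * (κ ^ 3 * S) = 2 * r ^ 2 * S ^ 2 := by
            linear_combination 2 * S * hGκ
          have e2 : 27 * a ^ 2 * (κ ^ 4 * R) * (κ ^ 3 * S) = 27 * a ^ 2 * κ ^ 7 * r ^ 2 := by
            linear_combination 27 * a ^ 2 * κ ^ 7 * hRS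
          rw [e1, e2]
          have i2 : κ ^ 4 ≤ κ ^ 7 := pow_le_pow_right₀ hκ (by norm_num)
          have i3 := mul_le_mul_of_nonneg_right i2 ha2.le
          have i6 : 0 ≤ κ ^ 7 * a ^ 2 := by positivity
          have i4 : 2 * S ^ 2 ≤ 27 * a ^ 2 * κ ^ 7 := by linarith
          have i5 := mul_le_mul_of_nonneg_right i4 (sq_nonneg r)
          linarith
        exact le_of_mul_le_mul_right i1 (by positivity)
      have i9 : d ≤ (G - e) / (27 * a ^ 2) := by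
        rw [hd]
        exact hdiv _ _ (by linarith [(abs_lt.1 hlt).2])
      refine i9.trans ?_
      have e3 : (G - e) / (27 * a ^ 2) = (-G - e) / (27 * a ^ 2) + 2 * G / (27 * a ^ 2) := by
        rw [← add_div]
        congr 1
        ring
      rw [e3]
      have i10 : 2 * G / (27 * a ^ 2) ≤ κ ^ 4 * R := by
        rw [div_le_iff₀ h27]
        linarith
      linarith
  · -- the outer intervals
    have hX2 : gl ≤ |X| := by
      rw [hgl]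
      exact Real.sqrt_le_iff.2 ⟨abs_nonneg _, by rw [sq_abs]; exact hLX⟩
    have hgaX : ga ≤ |X| := by
      rw [hga]
      exact max_le hge hX2
    have hgbX : |X| ≤ gb := by
      rw [hgb]
      apply Real.le_sqrt_of_sq_le
      rw [sq_abs]
      exact hUX
    have hU0 : 0 ≤ 4 * P ^ 3 + 27 * a ^ 2 * (κ * M) := (sq_nonneg X).trans hUX
    have hgb2 : gb ^ 2 = 4 * P ^ 3 + 27 * a ^ 2 * (κ * M) := by
      rw [hgb]
      exact Real.sq_sqrt hU0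
    have hgaG : G ≤ ga := by rw [hga]; exact le_max_left _ _
    have hga2 : 4 * P ^ 3 + 27 * a ^ 2 * (M / κ) ≤ ga ^ 2 := by
      have i1 : gl ≤ ga := by rw [hga]; exact le_max_right _ _
      have i2 : 0 ≤ gl := by rw [hgl]; exact Real.sqrt_nonneg _
      refine le_trans ?_ (pow_le_pow_left₀ i2 i1 2)
      rcases le_total 0 (4 * P ^ 3 + 27 * a ^ 2 * (M / κ)) with h | h
      · rw [hgl, Real.sq_sqrt h]
      · exact h.trans (sq_nonneg _)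
    have hMκ0 : 0 < M / κ := by positivity
    have hlen : (gb - ga) / (27 * a ^ 2) ≤ κ ^ 4 * R := by
      rw [div_le_iff₀ h27]
      have i1 : (gb - ga) * G ≤ 27 * a ^ 2 * (κ * M) := by
        have i2 : 0 ≤ gb - ga := by linarith
        have i3 : (gb - ga) * G ≤ (gb - ga) * (gb + ga) :=
          mul_le_mul_of_nonneg_left (by linarith) i2
        have i4 : (gb - ga) * (gb + ga) = gb ^ 2 - ga ^ 2 := by ring
        rw [i4, hgb2] at i3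
        have i5 : 0 ≤ 27 * a ^ 2 * (M / κ) := by positivity
        linarith
      have i6 : κ ^ 4 * R * (27 * a ^ 2) * G = 27 * a ^ 2 * (κ * M) := by
        have e1 : κ ^ 4 * R * (27 * a ^ 2) * G = 27 * a ^ 2 * κ * (R * (G * κ ^ 3)) := by ring
        rw [e1, hGκ, ← hr4]
        linear_combination 27 * a ^ 2 * κ * r ^ 2 * hRS
      rw [← i6] at i1
      exact le_of_mul_le_mul_right i1 hG0
    rcases le_total 0 X with h | h
    · rw [abs_of_nonneg h] at hgaX hgbX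
      refine ⟨1, ?_, ?_⟩
      · change (ga - e) / (27 * a ^ 2) ≤ d
        rw [hd]
        exact hdiv _ _ (by linarith)
      · change d ≤ (ga - e) / (27 * a ^ 2) + κ ^ 4 * R
        have i1 : d ≤ (gb - e) / (27 * a ^ 2) := by
          rw [hd]
          exact hdiv _ _ (by linarith)
        have e3 : (gb - e) / (27 * a ^ 2) =
            (ga - e) / (27 * a ^ 2) + (gb - ga) / (27 * a ^ 2) := by
          rw [← add_div]
          congr 1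
          ring
        linarith
    · rw [abs_of_nonpos h] at hgaX hgbX
      refine ⟨2, ?_, ?_⟩
      · change (-gb - e) / (27 * a ^ 2) ≤ d
        rw [hd]
        exact hdiv _ _ (by linarith)
      · change d ≤ (-gb - e) / (27 * a ^ 2) + κ ^ 4 * R
        have i1 : d ≤ (-ga - e) / (27 * a ^ 2) := by
          rw [hd]
          exact hdiv _ _ (by linarith)
        have e3 : (-ga - e) / (27 * a ^ 2) =
            (-gb - e) / (27 * a ^ 2) + (gb - ga) / (27 * a ^ 2) := by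
          rw [← add_div]
          congr 1
          ring
        linarith

theorem rea : Pool.Agent.LeoG.ReaStmt :=
  ⟨part1, fun κ hκ => ⟨κ ^ 4, by positivity, fun a b c M ξ ha hM hξ =>
    part2 κ hκ a b c M ξ ha hM hξ⟩⟩

end Pool.Agent.LeoG.H90
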